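import Pool.Agent.L0h31.KQ.Defs
import Pool.Agent.L0h31.KQ.Gap

/-! KQ module `S_JOINT`: the gap of a product of Casimir operators. -/

set_option autoImplicit false

namespace Pool.Agent.L0h79.KQ

open scoped InnerProductSpace Function
open Module.End

open Pool.Agent.L0h31.KQ

theorem joint : S_JOINT := by
  intro W P α _ _ _ _ _ _ _ τ T hadj hcomm hspan x
  -- the representation attached to a label
  obtain ⟨Ta, hTa⟩ : ∃ Ta : ∀ a : α, {r // τ r = a} → {r // τ r = a} → W →ₗ[ℂ] W,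
      ∀ a p q, Ta a p q = T p.1 q.1 := ⟨fun a p q => T p.1 q.1, fun _ _ _ => rfl⟩
  have hrep : ∀ a, Rep (Ta a) := by
    intro a
    refine ⟨fun p q x y => ?_, fun p q r s x => ?_⟩
    · rw [hTa, hTa]; exact hadj p.1 q.1 (p.2.trans q.2.symm) x y
    · have h := hcomm p.1 q.1 r.1 s.1 (p.2.trans q.2.symm) (r.2.trans s.2.symm) x
      simp only [hTa]
      rw [h]
      simp only [Subtype.ext_iff]
  -- everything commutes with the Casimir operators
  have hcc : ∀ a r s, τ r = τ s → ∀ y, T r s (cas (Ta a) y) = cas (Ta a) (T r s y) := by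
    intro a r s hrs y
    by_cases ha : τ r = a
    · have h := cas_comm (hrep a) ⟨r, ha⟩ ⟨s, hrs.symm.trans ha⟩ y
      rw [hTa] at h
      exact h
    · have h1 : ∀ (p q : {r // τ r = a}) (z : W), T r s (T p.1 q.1 z) = T p.1 q.1 (T r s z) := by
        intro p q z
        have h := hcomm p.1 q.1 r s (p.2.trans q.2.symm) hrs z
        have h2 : q.1 ≠ r := by rintro rfl; exact ha q.2
        have h3 : p.1 ≠ s := by rintro rfl; exact ha (hrs.trans p.2)
        rw [if_neg h2, if_neg h3, sub_zero, sub_eq_zero] at h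
        exact h.symm
      rw [cas_apply, cas_apply, map_sum]
      refine Finset.sum_congr rfl fun p _ => ?_
      rw [map_sum]
      refine Finset.sum_congr rfl fun q _ => ?_
      rw [hTa, hTa, h1, h1]
  have hcc2 : ∀ a b y, cas (Ta a) (cas (Ta b) y) = cas (Ta b) (cas (Ta a) y) := by
    intro a b y
    rw [cas_apply (Ta b), cas_apply (Ta b), map_sum]
    refine Finset.sum_congr rfl fun p _ => ?_
    rw [map_sum]
    refine Finset.sum_congr rfl fun q _ => ?_
    rw [hTa, hTa, hcc a p.1 q.1 (p.2.trans q.2.symm), ← hcc a q.1 p.1 (q.2.trans p.2.symm)]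
  -- the commuting family
  obtain ⟨F, hFl, hFr⟩ : ∃ F : α ⊕ P → W →ₗ[ℂ] W, (∀ a, F (Sum.inl a) = cas (Ta a)) ∧
      ∀ p, F (Sum.inr p) = T p p :=
    ⟨Sum.elim (fun a => cas (Ta a)) (fun p => T p p), fun _ => rfl, fun _ => rfl⟩
  have hFs : ∀ i, (F i).IsSymmetric := by
    rintro (a | p)
    · rw [hFl]; exact cas_symm (hrep a)
    · rw [hFr]; exact fun x y => hadj p p rfl x y
  have hFc : Pairwise (Commute on F) := by
    intro i j _
    change F i * F j = F j * F i
    ext y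
    change F i (F j y) = F j (F i y)
    rcases i with a | p <;> rcases j with b | q
    · rw [hFl, hFl]; exact hcc2 a b y
    · rw [hFl, hFr]; exact (hcc a q q rfl y).symm
    · rw [hFl, hFr]; exact hcc b p p rfl y
    · rw [hFr, hFr]
      have h := hcomm p p q q rfl rfl y
      by_cases hpq : p = q
      · rw [hpq]
      · rw [if_neg hpq, if_neg hpq, sub_zero, sub_eq_zero] at h
        exact h
  have htop := LinearMap.IsSymmetric.iSup_iInf_eq_top_of_commute hFs hFc
  have OF := LinearMap.IsSymmetric.orthogonalFamily_iInf_eigenspaces hFs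
  obtain ⟨f, hf, hfx⟩ := (Submodule.mem_iSup_iff_exists_finsupp
    (fun γ : α ⊕ P → ℂ => ⨅ i, eigenspace (F i) (γ i)) x).1 (by rw [htop]; trivial)
  have hfe : ∀ γ i, F i (f γ) = γ i • f γ := fun γ i =>
    mem_eigenspace_iff.1 ((Submodule.mem_iInf _).1 (hf γ) i)
  -- the weights are integers
  have hint : ∀ (y : W) (p : P) (c : ℂ), y ≠ 0 → T p p y = c • y → ∃ n : ℤ, c = n := by
    intro y p c hy hc
    by_contra hn
    push Not at hn
    apply hy
    have h1 : y ∈ (Submodule.span ℂ {x : W | ∃ w : P → ℤ, ∀ p, T p p x = ((w p : ℂ)) • x})ᗮ := by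
      rw [Submodule.mem_orthogonal]
      intro u hu
      induction hu using Submodule.span_induction with
      | mem u hu =>
        obtain ⟨w, hw⟩ := hu
        have h2 := hadj p p rfl u y
        rw [hw p, hc, inner_smul_left, inner_smul_right, map_intCast, ← sub_eq_zero,
          ← sub_mul] at h2
        rcases mul_eq_zero.1 h2 with h3 | h3
        · exact absurd (sub_eq_zero.1 h3).symm (hn (w p))
        · exact h3
      | zero => exact inner_zero_left _
      | add u v _ _ hu hv => rw [inner_add_left, hu, hv, add_zero]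
      | smul a u _ hu => rw [inner_smul_left, hu, mul_zero]
    rw [hspan, Submodule.top_orthogonal_eq_bot] at h1
    exact (Submodule.mem_bot ℂ).1 h1
  have hgap : ∀ γ, f γ ≠ 0 → ∀ a, (((γ (Sum.inl a)).re : ℂ) = γ (Sum.inl a)) ∧
      (∑ p, ∑ q, ‖Ta a p q (f γ)‖ ^ 2 = (γ (Sum.inl a)).re * ‖f γ‖ ^ 2) ∧
      ((γ (Sum.inl a)).re = 0 ∨ (Fintype.card {r // τ r = a} : ℝ) / 2 ≤ (γ (Sum.inl a)).re) := by
    intro γ hγ a
    have h1 : ∀ p, ∃ n : ℤ, γ (Sum.inr p) = n := fun p =>
      hint (f γ) p _ hγ (by rw [← hFr]; exact hfe γ (Sum.inr p))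
    choose w hw using h1
    refine gap_joint (hrep a) hγ (fun p => w p.1) (fun p => ?_) ?_
    · rw [hTa, ← hFr, hfe, hw]
    · rw [← hFl]; exact hfe γ (Sum.inl a)
  have hre0 : ∀ γ a, f γ ≠ 0 → 0 ≤ (γ (Sum.inl a)).re := by
    intro γ a hγ
    rcases (hgap γ hγ a).2.2 with h | h
    · exact h.ge
    · exact le_trans (by positivity) h
  have hxs : x = ∑ γ ∈ f.support, f γ := by rw [← hfx]; rfl
  set s := f.support with hs
  have hne : ∀ γ ∈ s, f γ ≠ 0 := fun γ hγ => by simpa [hs] using hγ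
  classical
  set s0 := s.filter (fun γ => ∀ a, γ (Sum.inl a) = 0) with hs0
  set s1 := s.filter (fun γ => ¬ ∀ a, γ (Sum.inl a) = 0) with hs1
  have hsplit : x = ∑ γ ∈ s0, f γ + ∑ γ ∈ s1, f γ := by
    rw [hxs, hs0, hs1, Finset.sum_filter_add_sum_filter_not]
  refine ⟨∑ γ ∈ s0, f γ, ?_, ?_⟩
  · intro p q hpq
    rw [map_sum]
    refine Finset.sum_eq_zero fun γ hγ => ?_
    rw [hs0, Finset.mem_filter] at hγ
    have h1 := (hgap γ (hne γ hγ.1) (τ p)).2.1
    rw [hγ.2 (τ p), Complex.zero_re, zero_mul] at h1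
    have h2 := (Finset.sum_eq_zero_iff_of_nonneg fun p _ =>
      Finset.sum_nonneg fun q _ => sq_nonneg _).1 h1 ⟨p, rfl⟩ (Finset.mem_univ _)
    have h3 := (Finset.sum_eq_zero_iff_of_nonneg fun q _ => sq_nonneg _).1 h2 ⟨q, hpq.symm⟩
      (Finset.mem_univ _)
    rw [hTa] at h3
    exact norm_eq_zero.1 (pow_eq_zero_iff (two_ne_zero) |>.1 h3)
  · have hsub : x - ∑ γ ∈ s0, f γ = ∑ γ ∈ s1, f γ := by
      rw [hsplit]; abel
    have hns : ‖∑ γ ∈ s1, f γ‖ ^ 2 = ∑ γ ∈ s1, ‖f γ‖ ^ 2 :=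
      OF.norm_sum (fun γ => ⟨f γ, hf γ⟩) s1
    have hcas : ∀ a, ∑ p, ∑ q, ‖Ta a p q x‖ ^ 2 = ∑ γ ∈ s, (γ (Sum.inl a)).re * ‖f γ‖ ^ 2 := by
      intro a
      have h1 := inner_cas (hrep a) x
      have h2 : cas (Ta a) x = ∑ γ ∈ s, γ (Sum.inl a) • f γ := by
        conv_lhs => rw [hxs]
        rw [map_sum]
        refine Finset.sum_congr rfl fun γ _ => ?_
        rw [← hFl]; exact hfe γ (Sum.inl a)
      have h3 : ⟪x, cas (Ta a) x⟫_ℂ = ∑ γ ∈ s, ⟪f γ, γ (Sum.inl a) • f γ⟫_ℂ := by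
        rw [h2, hxs]
        exact OF.inner_sum (fun γ => ⟨f γ, hf γ⟩) (fun γ => γ (Sum.inl a) • ⟨f γ, hf γ⟩) s
      rw [h3] at h1
      have h4 : ∀ γ ∈ s, ⟪f γ, γ (Sum.inl a) • f γ⟫_ℂ =
          (((γ (Sum.inl a)).re * ‖f γ‖ ^ 2 : ℝ) : ℂ) := by
        intro γ hγ
        rw [inner_smul_right, inner_self_eq_norm_sq_to_K]
        push_cast
        rw [(hgap γ (hne γ hγ) a).1]
        rfl
      rw [Finset.sum_congr rfl h4] at h1
      exact_mod_cast h1.symm
    have hR : ∑ p, ∑ q, (if τ p = τ q then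
        2 / (Fintype.card {r // τ r = τ p} : ℝ) * ‖T p q x‖ ^ 2 else 0) =
        ∑ a, 2 / (Fintype.card {r // τ r = a} : ℝ) * ∑ p, ∑ q, ‖Ta a p q x‖ ^ 2 := by
      rw [← Finset.sum_fiberwise Finset.univ τ]
      refine Finset.sum_congr rfl fun a _ => ?_
      rw [Finset.sum_subtype (Finset.univ.filter fun p => τ p = a) (p := fun p => τ p = a)
        (fun p => by simp), Finset.mul_sum]
      refine Finset.sum_congr rfl fun p _ => ?_
      obtain ⟨p, rfl⟩ := p
      rw [Finset.mul_sum, ← Finset.sum_filter]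
      rw [Finset.sum_subtype (Finset.univ.filter fun q => τ p = τ q) (p := fun q => τ q = τ p)
        (fun q => by simp [eq_comm])]
      refine Finset.sum_congr rfl fun q _ => ?_
      rw [hTa]
    rw [hsub, hns, hR]
    simp_rw [hcas]
    simp_rw [Finset.mul_sum]
    rw [Finset.sum_comm]
    have hterm : ∀ γ ∈ s, ∀ a, 0 ≤ 2 / (Fintype.card {r // τ r = a} : ℝ) *
        ((γ (Sum.inl a)).re * ‖f γ‖ ^ 2) := by
      intro γ hγ a
      have := hre0 γ a (hne γ hγ)
      positivity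
    have hs1s : s1 ⊆ s := by rw [hs1]; exact Finset.filter_subset _ _
    refine le_trans ?_ (Finset.sum_le_sum_of_subset_of_nonneg hs1s
      fun γ hγ _ => Finset.sum_nonneg fun a _ => hterm γ hγ a)
    refine Finset.sum_le_sum fun γ hγ => ?_
    rw [hs1, Finset.mem_filter] at hγ
    obtain ⟨hγs, hγ1⟩ := hγ
    push Not at hγ1
    obtain ⟨a, ha⟩ := hγ1
    refine le_trans ?_ (Finset.single_le_sum (f := fun a => 2 / (Fintype.card {r // τ r = a} : ℝ) *
        ((γ (Sum.inl a)).re * ‖f γ‖ ^ 2)) (fun a _ => hterm γ hγs a) (Finset.mem_univ a))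
    obtain ⟨g1, g2, g3⟩ := hgap γ (hne γ hγs) a
    have hre : (γ (Sum.inl a)).re ≠ 0 := by
      intro h
      apply ha
      rw [← g1, h, Complex.ofReal_zero]
    have hn0 : 0 < ‖f γ‖ ^ 2 := by
      have := norm_pos_iff.2 (hne γ hγs)
      positivity
    have hcard : 0 < (Fintype.card {r // τ r = a} : ℝ) := by
      rcases Nat.eq_zero_or_pos (Fintype.card {r // τ r = a}) with h | h
      · exfalso
        have : IsEmpty {r // τ r = a} := Fintype.card_eq_zero_iff.1 h
        rw [Finset.univ_eq_empty, Finset.sum_empty] at g2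
        rcases mul_eq_zero.1 g2.symm with h5 | h5
        · exact hre h5
        · exact hn0.ne' h5
      · exact_mod_cast h
    have g4 := g3.resolve_left hre
    change ‖f γ‖ ^ 2 ≤ 2 / (Fintype.card {r // τ r = a} : ℝ) * ((γ (Sum.inl a)).re * ‖f γ‖ ^ 2)
    rw [← mul_assoc]
    have : 1 ≤ 2 / (Fintype.card {r // τ r = a} : ℝ) * (γ (Sum.inl a)).re := by
      rw [div_mul_eq_mul_div, le_div_iff₀ hcard]
      linarith
    nlinarith

end Pool.Agent.L0h79.KQ
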