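import Pool.Agent.L0h31.KQ.Defs

/-! KQ module `S_SLICE`: exponential moments of an operator norm from those of single entries. -/

set_option autoImplicit false

namespace Pool.Agent.L0h79.KQ

open MeasureTheory Set
open scoped ENNReal InnerProductSpace

open Pool.Agent.L0h31.KQ

/-- vectors of norm at most one at which an operator attains its norm -/
theorem exists_norming {F1 F2 : Type} [NormedAddCommGroup F1]
    [InnerProductSpace ℝ F1] [FiniteDimensional ℝ F1] [NormedAddCommGroup F2]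
    [InnerProductSpace ℝ F2] (T : F1 →L[ℝ] F2) :
    ∃ (x : F1) (y : F2), ‖x‖ ≤ 1 ∧ ‖y‖ ≤ 1 ∧ ⟪T x, y⟫_ℝ = ‖T‖ := by
  have : ProperSpace F1 := FiniteDimensional.proper ℝ F1
  have hcx : Continuous fun v : F1 => ‖T v‖ := T.continuous.norm
  obtain ⟨vs, hvsB, hmax⟩ := (isCompact_closedBall (0 : F1) 1).exists_isMaxOn
    ⟨0, by simp⟩ hcx.continuousOn
  have hvs1 : ‖vs‖ ≤ 1 := by simpa using hvsB
  have hmax' : ∀ v : F1, ‖v‖ ≤ 1 → ‖T v‖ ≤ ‖T vs‖ := fun v hv' => hmax (by simpa using hv')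
  have hop : ‖T‖ ≤ ‖T vs‖ := by
    refine ContinuousLinearMap.opNorm_le_bound _ (norm_nonneg _) fun v => ?_
    rcases eq_or_ne v 0 with rfl | hv
    · simp
    · have hn : 0 < ‖v‖ := norm_pos_iff.2 hv
      have h1 := hmax' (‖v‖⁻¹ • v) (by
        rw [norm_smul, norm_inv, norm_norm, inv_mul_cancel₀ hn.ne'])
      rw [map_smul, norm_smul, norm_inv, norm_norm, inv_mul_le_iff₀ hn] at h1
      linarith
  have hop' : ‖T vs‖ = ‖T‖ := by
    refine le_antisymm ?_ hop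
    calc ‖T vs‖ ≤ ‖T‖ * ‖vs‖ := T.le_opNorm vs
      _ ≤ ‖T‖ * 1 := by gcongr
      _ = ‖T‖ := mul_one _
  refine ⟨vs, ‖T vs‖⁻¹ • T vs, hvs1, ?_, ?_⟩
  · rw [norm_smul, norm_inv, norm_norm]
    exact inv_mul_le_one
  · rw [real_inner_smul_right, real_inner_self_eq_norm_sq, hop']
    rcases eq_or_ne ‖T‖ 0 with h | h
    · rw [h]; simp
    · field_simp

/-- on two balls of radius `1/8` the form is at least half the norm -/
theorem half_le {F1 F2 : Type} [NormedAddCommGroup F1]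
    [InnerProductSpace ℝ F1] [NormedAddCommGroup F2]
    [InnerProductSpace ℝ F2] (T : F1 →L[ℝ] F2) {xs : F1} {ys : F2} (hxs : ‖xs‖ ≤ 1)
    (hys : ‖ys‖ ≤ 1) (hT : ⟪T xs, ys⟫_ℝ = ‖T‖) {x : F1} {y : F2}
    (hx : x ∈ Metric.closedBall ((7 / 8 : ℝ) • xs) (1 / 8))
    (hy : y ∈ Metric.closedBall ((7 / 8 : ℝ) • ys) (1 / 8)) :
    ‖T‖ / 2 ≤ ⟪T x, y⟫_ℝ := by
  rw [Metric.mem_closedBall, dist_eq_norm] at hx hy
  obtain ⟨w, hw⟩ : ∃ w : F1, w = x - (7 / 8 : ℝ) • xs := ⟨_, rfl⟩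
  obtain ⟨u, hu⟩ : ∃ u : F2, u = y - (7 / 8 : ℝ) • ys := ⟨_, rfl⟩
  rw [← hw] at hx
  rw [← hu] at hy
  have hxw : x = (7 / 8 : ℝ) • xs + w := by rw [hw]; abel
  have hyu : y = (7 / 8 : ℝ) • ys + u := by rw [hu]; abel
  have e : ⟪T x, y⟫_ℝ = 49 / 64 * ⟪T xs, ys⟫_ℝ + 7 / 8 * ⟪T xs, u⟫_ℝ + 7 / 8 * ⟪T w, ys⟫_ℝ +
      ⟪T w, u⟫_ℝ := by
    rw [hxw, hyu, map_add, map_smul, inner_add_left, inner_add_right, inner_add_right,
      real_inner_smul_left, real_inner_smul_left, real_inner_smul_right, real_inner_smul_right]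
    ring
  have hn0 : 0 ≤ ‖T‖ := norm_nonneg T
  have key : ∀ (a : F1) (b : F2) (r s : ℝ), 0 ≤ r → 0 ≤ s → ‖a‖ ≤ r → ‖b‖ ≤ s →
      -(‖T‖ * (r * s)) ≤ ⟪T a, b⟫_ℝ := by
    intro a b r s hr hs ha hb
    have h1 : |⟪T a, b⟫_ℝ| ≤ ‖T a‖ * ‖b‖ := abs_real_inner_le_norm _ _
    have h2 : ‖T a‖ ≤ ‖T‖ * r := (T.le_opNorm a).trans (by gcongr)
    have h3 : ‖T a‖ * ‖b‖ ≤ ‖T‖ * r * s := by gcongr
    have h4 := neg_abs_le ⟪T a, b⟫_ℝ
    nlinarith
  have k1 := key xs u 1 (1 / 8) (by norm_num) (by norm_num) hxs hy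
  have k2 := key w ys (1 / 8) 1 (by norm_num) (by norm_num) hx hys
  have k3 := key w u (1 / 8) (1 / 8) (by norm_num) (by norm_num) hx hy
  rw [e, hT]
  nlinarith

theorem ball_subset {F : Type} [NormedAddCommGroup F] [InnerProductSpace ℝ F] {xs : F}
    (hxs : ‖xs‖ ≤ 1) :
    Metric.closedBall ((7 / 8 : ℝ) • xs) (1 / 8) ⊆ Metric.closedBall (0 : F) 1 := by
  intro v hv
  rw [Metric.mem_closedBall, dist_eq_norm] at hv
  rw [mem_closedBall_zero_iff]
  have hn78 : ‖(7 / 8 : ℝ)‖ = 7 / 8 := by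
    rw [Real.norm_eq_abs, abs_of_pos (by norm_num)]
  calc ‖v‖ = ‖(7 / 8 : ℝ) • xs + (v - (7 / 8 : ℝ) • xs)‖ := by congr 1; abel
    _ ≤ ‖(7 / 8 : ℝ) • xs‖ + ‖v - (7 / 8 : ℝ) • xs‖ := norm_add_le _ _
    _ ≤ 7 / 8 * 1 + 1 / 8 := by
      rw [norm_smul, hn78]
      gcongr
    _ = 1 := by norm_num

theorem meas_form {Ω F1 F2 : Type} [MeasurableSpace Ω] [NormedAddCommGroup F1]
    [InnerProductSpace ℝ F1] [FiniteDimensional ℝ F1] [NormedAddCommGroup F2]
    [InnerProductSpace ℝ F2] [FiniteDimensional ℝ F2] [MeasurableSpace F1] [BorelSpace F1]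
    [MeasurableSpace F2] [BorelSpace F2]
    (H : Ω → F1 →L[ℝ] F2) (hH : ∀ x y, Measurable fun ω => ⟪H ω x, y⟫_ℝ) :
    Measurable fun p : Ω × (F1 × F2) => ⟪H p.1 p.2.1, p.2.2⟫_ℝ := by
  set e := stdOrthonormalBasis ℝ F1 with he
  set f := stdOrthonormalBasis ℝ F2 with hf
  have h1 : (fun p : Ω × (F1 × F2) => ⟪H p.1 p.2.1, p.2.2⟫_ℝ) = fun p =>
      ∑ i, ∑ j, ⟪e i, p.2.1⟫_ℝ * (⟪f j, p.2.2⟫_ℝ * ⟪H p.1 (e i), f j⟫_ℝ) := by
    funext p
    obtain ⟨ω, x, y⟩ := p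
    simp only
    conv_lhs => rw [← e.sum_repr' x, ← f.sum_repr' y]
    rw [map_sum, sum_inner]
    refine Finset.sum_congr rfl fun i _ => ?_
    rw [inner_sum]
    refine Finset.sum_congr rfl fun j _ => ?_
    rw [map_smul, real_inner_smul_left, real_inner_smul_right]
  rw [h1]
  have : SecondCountableTopology F1 := by
    have : ProperSpace F1 := FiniteDimensional.proper ℝ F1
    infer_instance
  have : SecondCountableTopology F2 := by
    have : ProperSpace F2 := FiniteDimensional.proper ℝ F2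
    infer_instance
  refine Finset.measurable_sum _ fun i _ => Finset.measurable_sum _ fun j _ => ?_
  refine Measurable.mul ?_ (Measurable.mul ?_ ?_)
  · exact (continuous_const.inner continuous_id).measurable.comp (measurable_fst.comp measurable_snd)
  · exact (continuous_const.inner continuous_id).measurable.comp (measurable_snd.comp measurable_snd)
  · exact (hH (e i) (f j)).comp measurable_fst

theorem slice : S_SLICE := by
  intro Ω F1 F2 _ _ _ _ _ _ _ μ _ H hH K t ht hK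
  borelize F1
  borelize F2
  have : ProperSpace F1 := FiniteDimensional.proper ℝ F1
  have : ProperSpace F2 := FiniteDimensional.proper ℝ F2
  obtain ⟨ν1, hν1⟩ : ∃ ν : Measure F1, ν = Measure.addHaar := ⟨_, rfl⟩
  have hν1h : ν1.IsAddHaarMeasure := by rw [hν1]; infer_instance
  obtain ⟨ν2, hν2⟩ : ∃ ν : Measure F2, ν = Measure.addHaar := ⟨_, rfl⟩
  have hν2h : ν2.IsAddHaarMeasure := by rw [hν2]; infer_instance
  set B1 : Set F1 := Metric.closedBall 0 1 with hB1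
  set B2 : Set F2 := Metric.closedBall 0 1 with hB2
  have hB1m : MeasurableSet B1 := Metric.isClosed_closedBall.measurableSet
  have hB2m : MeasurableSet B2 := Metric.isClosed_closedBall.measurableSet
  have hB10 : ν1 B1 ≠ 0 := (Metric.measure_closedBall_pos ν1 _ one_pos).ne'
  have hB1t : ν1 B1 ≠ ⊤ := measure_closedBall_lt_top.ne
  have hB20 : ν2 B2 ≠ 0 := (Metric.measure_closedBall_pos ν2 _ one_pos).ne'
  have hB2t : ν2 B2 ≠ ⊤ := measure_closedBall_lt_top.ne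
  have hfin1 : IsFiniteMeasure (ν1.restrict B1) := ⟨by
    rw [Measure.restrict_apply MeasurableSet.univ, univ_inter]; exact hB1t.lt_top⟩
  have hfin2 : IsFiniteMeasure (ν2.restrict B2) := ⟨by
    rw [Measure.restrict_apply MeasurableSet.univ, univ_inter]; exact hB2t.lt_top⟩
  set d1 := Module.finrank ℝ F1 with hd1
  set d2 := Module.finrank ℝ F2 with hd2
  set ν := (ν1.restrict B1).prod (ν2.restrict B2) with hν
  set V : ℝ≥0∞ := ν1 B1 * ν2 B2 with hV
  have hV0 : V ≠ 0 := mul_ne_zero hB10 hB20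
  have hVt : V ≠ ⊤ := ENNReal.mul_ne_top hB1t hB2t
  have hνu : ν univ = V := by
    rw [hν, ← univ_prod_univ, Measure.prod_prod, Measure.restrict_apply MeasurableSet.univ,
      Measure.restrict_apply MeasurableSet.univ, univ_inter, univ_inter]
  have hfm := meas_form H hH
  have hfm2 : Measurable fun p : Ω × (F1 × F2) =>
      ENNReal.ofReal (Real.exp (t * ⟪H p.1 p.2.1, p.2.2⟫_ℝ)) :=
    ENNReal.measurable_ofReal.comp (Real.measurable_exp.comp (hfm.const_mul t))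
  -- lower bound for every operator
  have hlow : ∀ ω, ENNReal.ofReal ((1 / 8 : ℝ) ^ (d1 + d2)) * V *
      ENNReal.ofReal (Real.exp (t * ‖H ω‖ / 2)) ≤
      ∫⁻ z, ENNReal.ofReal (Real.exp (t * ⟪H ω z.1, z.2⟫_ℝ)) ∂ν := by
    intro ω
    obtain ⟨xs, ys, hxs, hys, hxy⟩ := exists_norming (H ω)
    set S : Set (F1 × F2) := Metric.closedBall ((7 / 8 : ℝ) • xs) (1 / 8) ×ˢ
      Metric.closedBall ((7 / 8 : ℝ) • ys) (1 / 8) with hS
    have hSm : MeasurableSet S := Metric.isClosed_closedBall.measurableSet.prod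
      Metric.isClosed_closedBall.measurableSet
    have hSν : ν S = ENNReal.ofReal ((1 / 8 : ℝ) ^ (d1 + d2)) * V := by
      rw [hν, hS, Measure.prod_prod, Measure.restrict_apply Metric.isClosed_closedBall.measurableSet,
        Measure.restrict_apply Metric.isClosed_closedBall.measurableSet,
        inter_eq_left.2 (ball_subset hxs), inter_eq_left.2 (ball_subset hys),
        Measure.addHaar_closedBall' _ _ (by norm_num : (0 : ℝ) ≤ 1 / 8),
        Measure.addHaar_closedBall' _ _ (by norm_num : (0 : ℝ) ≤ 1 / 8), pow_add,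
        ENNReal.ofReal_mul (by positivity), hV]
      ring
    calc ENNReal.ofReal ((1 / 8 : ℝ) ^ (d1 + d2)) * V *
        ENNReal.ofReal (Real.exp (t * ‖H ω‖ / 2))
        = ∫⁻ z in S, ENNReal.ofReal (Real.exp (t * ‖H ω‖ / 2)) ∂ν := by
          rw [setLIntegral_const, hSν, mul_comm]
      _ ≤ ∫⁻ z in S, ENNReal.ofReal (Real.exp (t * ⟪H ω z.1, z.2⟫_ℝ)) ∂ν := by
          refine setLIntegral_mono' hSm fun z hz => ?_
          apply ENNReal.ofReal_le_ofReal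
          apply Real.exp_le_exp.2
          have := half_le (H ω) hxs hys hxy hz.1 hz.2
          have h2 := mul_le_mul_of_nonneg_left this ht
          linarith
      _ ≤ _ := setLIntegral_le_lintegral _ _
  -- upper bound
  have hup : ∫⁻ ω, ∫⁻ z, ENNReal.ofReal (Real.exp (t * ⟪H ω z.1, z.2⟫_ℝ)) ∂ν ∂μ ≤
      ENNReal.ofReal (Real.exp (K * t ^ 2)) * V := by
    rw [lintegral_lintegral_swap hfm2.aemeasurable]
    have hae : ∀ᵐ z ∂ν, z ∈ B1 ×ˢ B2 := by
      rw [hν, Measure.prod_restrict]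
      exact ae_restrict_mem (hB1m.prod hB2m)
    calc ∫⁻ z, ∫⁻ ω, ENNReal.ofReal (Real.exp (t * ⟪H ω z.1, z.2⟫_ℝ)) ∂μ ∂ν
        ≤ ∫⁻ z, ENNReal.ofReal (Real.exp (K * t ^ 2)) ∂ν := by
          refine lintegral_mono_ae ?_
          filter_upwards [hae] with z hz
          exact hK z.1 z.2 (by simpa [hB1] using hz.1) (by simpa [hB2] using hz.2)
      _ = _ := by rw [lintegral_const, hνu]
  have hmain : ENNReal.ofReal ((1 / 8 : ℝ) ^ (d1 + d2)) * V *
      (∫⁻ ω, ENNReal.ofReal (Real.exp (t * ‖H ω‖ / 2)) ∂μ) ≤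
      ENNReal.ofReal (Real.exp (K * t ^ 2)) * V := by
    refine le_trans ?_ hup
    rw [← lintegral_const_mul' _ _ (ENNReal.mul_ne_top ENNReal.ofReal_ne_top hVt)]
    exact lintegral_mono hlow
  have h3 : ENNReal.ofReal ((1 / 8 : ℝ) ^ (d1 + d2)) *
      (∫⁻ ω, ENNReal.ofReal (Real.exp (t * ‖H ω‖ / 2)) ∂μ) ≤
      ENNReal.ofReal (Real.exp (K * t ^ 2)) := by
    have h9 : (ENNReal.ofReal ((1 / 8 : ℝ) ^ (d1 + d2)) *
      (∫⁻ ω, ENNReal.ofReal (Real.exp (t * ‖H ω‖ / 2)) ∂μ)) * V ≤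
      ENNReal.ofReal (Real.exp (K * t ^ 2)) * V := by
      refine le_trans (le_of_eq ?_) hmain
      ring
    exact (ENNReal.mul_le_mul_iff_left hV0 hVt).1 h9
  calc ∫⁻ ω, ENNReal.ofReal (Real.exp (t * ‖H ω‖ / 2)) ∂μ
      = ENNReal.ofReal ((8 : ℝ) ^ (d1 + d2)) * (ENNReal.ofReal ((1 / 8 : ℝ) ^ (d1 + d2)) *
        (∫⁻ ω, ENNReal.ofReal (Real.exp (t * ‖H ω‖ / 2)) ∂μ)) := by
        rw [← mul_assoc, ← ENNReal.ofReal_mul (by positivity), ← mul_pow]
        norm_num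
    _ ≤ ENNReal.ofReal ((8 : ℝ) ^ (d1 + d2)) * ENNReal.ofReal (Real.exp (K * t ^ 2)) := by gcongr
    _ = _ := by rw [← ENNReal.ofReal_mul (by positivity)]

end Pool.Agent.L0h79.KQ
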